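import Pool.Agent.W275.US.Stm
import Pool.Agent.W275.US.Vol

/-!
# US-ANG: one of many blocks
-/

set_option autoImplicit false

namespace Pool.Agent.W249.US.Ang

open MeasureTheory Set Pool.Agent.W275.US
open scoped ENNReal InnerProductSpace

variable {b d : ℕ}

theorem blk_continuous (i : Fin b) : Continuous (blk i : X b d → E d) := by
  unfold blk
  exact (PiLp.continuous_toLp 2 _).comp (continuous_pi fun k => PiLp.continuous_apply 2 _ (i, k))

theorem cat_continuous : Continuous (cat : (Fin b → E d) → X b d) := by
  unfold cat
  refine (PiLp.continuous_toLp 2 _).comp (continuous_pi fun q => ?_)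
  exact (PiLp.continuous_apply 2 _ q.2).comp (continuous_apply q.1)

theorem rep_continuous (i : Fin b) : Continuous fun q : E d × X b d => rep i q.1 q.2 := by
  unfold rep
  refine cat_continuous.comp ?_
  refine Continuous.update (A := fun _ : Fin b => E d) ?_ i continuous_fst
  exact continuous_pi fun j => (blk_continuous j).comp continuous_snd

theorem rep_cat (i : Fin b) (y : E d) (u : Fin b → E d) :
    rep i y (cat u) = cat (Function.update u i y) := by
  unfold rep
  congr 1

theorem blk_rep (i j : Fin b) (y : E d) (x : X b d) :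
    blk j (rep i y x) = if j = i then y else blk j x := by
  unfold rep
  rw [blk_cat]
  by_cases h : j = i
  · subst h
    rw [Function.update_self, if_pos rfl]
  · rw [Function.update_of_ne h, if_neg h]

theorem blk_rep_self (i : Fin b) (y : E d) (x : X b d) : blk i (rep i y x) = y := by
  rw [blk_rep, if_pos rfl]

theorem rep_rep (i : Fin b) (y z : E d) (x : X b d) : rep i z (rep i y x) = rep i z x := by
  unfold rep
  congr 1
  funext j
  by_cases h : j = i
  · subst h
    rw [Function.update_self, Function.update_self]
  · rw [Function.update_of_ne h, Function.update_of_ne h, blk_cat, Function.update_of_ne h]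

theorem rep_eq (i : Fin b) (y : E d) (x : X b d) : rep i y x = rep i 0 x + inj i y := by
  ext q
  obtain ⟨j, k⟩ := q
  show (rep i y x) (j, k) = (rep i 0 x) (j, k) + (if j = i then y k else 0)
  have h1 : ∀ z : E d, (rep i z x) (j, k) = (blk j (rep i z x)) k := fun z => rfl
  rw [h1, h1, blk_rep, blk_rep]
  by_cases h : j = i
  · rw [if_pos h, if_pos h, if_pos h]; simp
  · rw [if_neg h, if_neg h, if_neg h, add_zero]

theorem dir_meas (p : Seminorm ℝ (E d)) : Measurable (dir p) := by
  unfold dir
  exact ((p_cont p).measurable.inv).smul measurable_id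

/-- slicing -/
theorem slice {F H : (Fin b → E d) → ℝ≥0∞} (hF : Measurable F) (hH : Measurable H) (i : Fin b)
    (h : ∀ u, ∫⁻ y, F (Function.update u i y) ≤ ∫⁻ y, H (Function.update u i y)) :
    ∫⁻ u, F u ∂(Measure.pi fun _ : Fin b => (volume : Measure (E d))) ≤
      ∫⁻ u, H u ∂(Measure.pi fun _ : Fin b => (volume : Measure (E d))) := by
  rw [lintegral_eq_lmarginal_univ (fun _ => 0), lintegral_eq_lmarginal_univ (fun _ => 0),
    lmarginal_erase' _ hF (Finset.mem_univ i), lmarginal_erase' _ hH (Finset.mem_univ i)]
  exact lmarginal_mono (fun u => h u) _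

theorem fderiv_rep (i : Fin b) (x : X b d) {f : X b d → ℝ} (hf : ContDiff ℝ 1 f) (y : E d) :
    fderiv ℝ (fun y => f (rep i y x)) y = (fderiv ℝ f (rep i y x)).comp (inj i) := by
  have h1 : HasFDerivAt (fun y : E d => rep i y x) (inj i : E d →L[ℝ] X b d) y := by
    have h2 : (fun y : E d => rep i y x) = fun y => rep i 0 x + inj i y := by
      funext y; exact rep_eq i y x
    rw [h2]
    exact ((inj i).hasFDerivAt).const_add _
  have h3 : HasFDerivAt f (fderiv ℝ f (rep i y x)) (rep i y x) :=
    (hf.differentiable one_ne_zero _).hasFDerivAt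
  exact (h3.comp y h1).fderiv

theorem main : S_ang1 → S_ang := by
  intro h1 b d hd p hp i K a hK ha hPo ρ hρm hρ0 hρi hρR hρmono hρa f hf
  obtain ⟨R, hR⟩ := hρR
  have := unif_prob (hp i)
  have hfc : Continuous f := hf.continuous
  have hfd : Continuous (fderiv ℝ f) := hf.continuous_fderiv one_ne_zero
  -- the inner average
  have hjm : StronglyMeasurable (fun q : X b d × E d =>
      f (rep i (p i (blk i q.1) • dir (p i) q.2) q.1)) := by
    refine (Measurable.comp hfc.measurable ?_).stronglyMeasurable
    refine (rep_continuous i).measurable.comp (Measurable.prodMk ?_ measurable_fst)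
    exact (((p_cont (p i)).measurable.comp ((blk_continuous i).measurable.comp
      measurable_fst))).smul ((dir_meas (p i)).comp measurable_snd)
  set A : X b d → ℝ := fun x => ∫ v, f (rep i (p i (blk i x) • dir (p i) v) x) ∂(unif (p i))
    with hA
  have hAm : Measurable A := (hjm.integral_prod_right (ν := unif (p i))).measurable
  set F : X b d → ℝ := fun x => (f x - A x) ^ 2 * ρ x with hF
  set H : X b d → ℝ := fun x => ‖(fderiv ℝ f x).comp (inj i)‖ ^ 2 * ρ x with hH
  have hFm : Measurable F := ((hfc.measurable.sub hAm).pow_const 2).mul hρm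
  have hcm : Continuous fun x : X b d => ‖(fderiv ℝ f x).comp (inj i : E d →L[ℝ] X b d)‖ ^ 2 :=
    ((hfd.clm_comp continuous_const).norm).pow 2
  have hHm : Measurable H := hcm.measurable.mul hρm
  have hF0 : ∀ x, 0 ≤ F x := fun x => mul_nonneg (sq_nonneg _) (hρ0 x)
  have hH0 : ∀ x, 0 ≤ H x := fun x => mul_nonneg (sq_nonneg _) (hρ0 x)
  -- one block
  have hblock : ∀ x : X b d, ∫⁻ y, ENNReal.ofReal (F (rep i y x)) ≤
      ENNReal.ofReal (K * a ^ 2) * ∫⁻ y, ENNReal.ofReal (H (rep i y x)) := by
    intro x
    have hrc : Continuous fun y : E d => rep i y x :=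
      (rep_continuous i).comp (continuous_id.prodMk continuous_const)
    have hg : ContDiff ℝ 1 (fun y => f (rep i y x)) := by
      have h2 : (fun y : E d => f (rep i y x)) = fun y => f (rep i 0 x + inj i y) := by
        funext y; rw [rep_eq i y x]
      rw [h2]
      exact hf.comp (contDiff_const.add (inj i).contDiff)
    have hw := h1 d hd (p i) (hp i) K a hK ha hPo (fun y => ρ (rep i y x))
      (hρm.comp hrc.measurable) (fun y => hρ0 _)
      (fun y y' hyy => by
        refine hρmono _ _ fun j => ?_
        rw [blk_rep, blk_rep]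
        by_cases hj : j = i
        · rw [if_pos hj, if_pos hj, hj]; exact hyy
        · rw [if_neg hj, if_neg hj])
      (fun y hy => hρa _ (by rw [blk_rep_self]; exact hy))
      (fun y => f (rep i y x)) hg
    have e1 : ∀ y, F (rep i y x) =
        (f (rep i y x) - ∫ v, f (rep i (p i y • dir (p i) v) x) ∂(unif (p i))) ^ 2 *
          ρ (rep i y x) := by
      intro y
      simp only [hF, hA, blk_rep_self, rep_rep]
    have e2 : ∀ y, H (rep i y x) =
        ‖fderiv ℝ (fun y => f (rep i y x)) y‖ ^ 2 * ρ (rep i y x) := by
      intro y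
      rw [fderiv_rep i x hf y]
    simp only [← e1, ← e2] at hw
    -- integrability of the slice of F
    have hcomp : IsCompact {y : E d | p i y ≤ a} := by
      obtain ⟨C, hC0, hC⟩ := norm_le (hp i)
      refine (isCompact_closedBall (0 : E d) (C * a)).of_isClosed_subset
        (isClosed_le (p_cont (p i)) continuous_const) fun y hy => ?_
      rw [mem_closedBall_zero_iff]
      exact (hC y).trans (mul_le_mul_of_nonneg_left hy hC0.le)
    obtain ⟨B, hB⟩ := (hcomp.image (hfc.comp hrc)).isBounded.exists_norm_le
    have hB' : ∀ y, p i y ≤ a → |f (rep i y x)| ≤ B := fun y hy =>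
      hB _ (mem_image_of_mem _ hy)
    have hB0 : 0 ≤ B := (abs_nonneg _).trans (hB' 0 (by rw [map_zero]; exact ha.le))
    have hFi : Integrable (fun y => F (rep i y x)) := by
      have hset : MeasurableSet {y : E d | p i y ≤ a} :=
        (isClosed_le (p_cont (p i)) continuous_const).measurableSet
      have hi1 : IntegrableOn (fun _ : E d => (B + B) ^ 2 * ρ (rep i 0 x))
          {y : E d | p i y ≤ a} := by
        rw [integrableOn_const_iff]
        exact Or.inr hcomp.measure_lt_top
      refine Integrable.mono' (hi1.integrable_indicator hset)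
        (hFm.comp hrc.measurable).aestronglyMeasurable (Filter.Eventually.of_forall fun y => ?_)
      rw [Real.norm_eq_abs, abs_of_nonneg (hF0 _)]
      by_cases hy : p i y ≤ a
      · rw [indicator_of_mem (show y ∈ {y : E d | p i y ≤ a} from hy), e1]
        have k1 : ρ (rep i y x) ≤ ρ (rep i 0 x) := by
          refine hρmono _ _ fun j => ?_
          rw [blk_rep, blk_rep]
          by_cases hj : j = i
          · rw [if_pos hj, if_pos hj, map_zero]; exact apply_nonneg _ _
          · rw [if_neg hj, if_neg hj]
        have k2 : |∫ v, f (rep i (p i y • dir (p i) v) x) ∂(unif (p i))| ≤ B := by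
          have k3 := norm_integral_le_of_norm_le_const (μ := unif (p i)) (C := B)
            (f := fun v => f (rep i (p i y • dir (p i) v) x))
            (Filter.Eventually.of_forall fun v => hB' _ (by
              rw [map_smul_eq_mul, Real.norm_eq_abs, abs_of_nonneg (apply_nonneg _ _)]
              by_cases hv : v = 0
              · subst hv
                unfold dir
                rw [smul_zero, map_zero, mul_zero]
                exact ha.le
              · rw [p_dir (hp i) hv, mul_one]
                exact hy))
          simpa using k3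
        have k4 : |f (rep i y x) - ∫ v, f (rep i (p i y • dir (p i) v) x) ∂(unif (p i))| ≤
            B + B := (abs_sub _ _).trans (add_le_add (hB' y hy) k2)
        have k5 : (f (rep i y x) - ∫ v, f (rep i (p i y • dir (p i) v) x) ∂(unif (p i))) ^ 2 ≤
            (B + B) ^ 2 := by
          rw [← sq_abs]
          exact pow_le_pow_left₀ (abs_nonneg _) k4 2
        exact mul_le_mul k5 k1 (hρ0 _) (sq_nonneg _)
      · rw [indicator_of_notMem (show y ∉ {y : E d | p i y ≤ a} from hy)]
        have : ρ (rep i y x) = 0 := hρa _ (by rw [blk_rep_self]; exact not_le.mp hy)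
        rw [e1, this, mul_zero]
    rw [← ofReal_integral_eq_lintegral_ofReal hFi (Filter.Eventually.of_forall fun y => hF0 _)]
    refine (ENNReal.ofReal_le_ofReal hw).trans ?_
    rw [ENNReal.ofReal_mul (by positivity)]
    refine mul_le_mul_right ?_ _
    by_cases hHi : Integrable (fun y => H (rep i y x))
    · rw [ofReal_integral_eq_lintegral_ofReal hHi (Filter.Eventually.of_forall fun y => hH0 _)]
    · rw [integral_undef hHi, ENNReal.ofReal_zero]
      exact bot_le
  -- all blocks
  have hall : ∫⁻ x, ENNReal.ofReal (F x) ≤ ENNReal.ofReal (K * a ^ 2) *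
      ∫⁻ x, ENNReal.ofReal (H x) := by
    rw [← lintegral_const_mul _ hHm.ennreal_ofReal,
      ← (cat_mp b d).lintegral_comp hFm.ennreal_ofReal,
      ← (cat_mp b d).lintegral_comp (hHm.ennreal_ofReal.const_mul _)]
    refine slice (hFm.ennreal_ofReal.comp cat_continuous.measurable)
      ((hHm.ennreal_ofReal.const_mul _).comp cat_continuous.measurable) i fun u => ?_
    have h2 := hblock (cat u)
    simp only [rep_cat] at h2
    rw [lintegral_const_mul]
    · exact h2
    · refine hHm.ennreal_ofReal.comp (cat_continuous.measurable.comp ?_)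
      exact (continuous_const.update i continuous_id).measurable
  -- integrability of H
  have hHi : Integrable H := by
    obtain ⟨B, hB⟩ := ((isCompact_closedBall (0 : X b d) R).image hcm).isBounded.exists_norm_le
    refine Integrable.mono' (hρi.const_mul |B|) hHm.aestronglyMeasurable
      (Filter.Eventually.of_forall fun x => ?_)
    rw [Real.norm_eq_abs, abs_of_nonneg (hH0 x)]
    by_cases hx : ‖x‖ ≤ R
    · refine mul_le_mul_of_nonneg_right ?_ (hρ0 x)
      have := hB _ (mem_image_of_mem _ (mem_closedBall_zero_iff.mpr hx))
      exact (le_abs_self _).trans (this.trans (le_abs_self B))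
    · show ‖(fderiv ℝ f x).comp (inj i)‖ ^ 2 * ρ x ≤ _
      rw [hR x (not_le.mp hx), mul_zero, mul_zero]
  -- conclusion
  show ∫ x, F x ≤ K * a ^ 2 * ∫ x, H x
  rw [← ofReal_integral_eq_lintegral_ofReal hHi (Filter.Eventually.of_forall hH0),
    ← ENNReal.ofReal_mul (by positivity)] at hall
  rw [integral_eq_lintegral_of_nonneg_ae (Filter.Eventually.of_forall hF0)
    hFm.aestronglyMeasurable]
  have h3 : 0 ≤ K * a ^ 2 * ∫ x, H x :=
    mul_nonneg (by positivity) (integral_nonneg hH0)
  exact ENNReal.toReal_le_of_le_ofReal h3 hall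

end Pool.Agent.W249.US.Ang
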